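import Pool.Agent.H72.BF.Targets

open Polynomial Finset IntermediateField

namespace Pool.Agent.H36.BF

open Pool.Agent.H72.BF

/-- a root of a monic integer polynomial with coefficients at most `B` is at most `1 + B` -/
lemma norm_root_le (q : ℤ[X]) (δ : ℕ) (B : ℝ) (hm : q.Monic) (hd : q.natDegree = δ)
    (hB : ∀ i, |(q.coeff i : ℝ)| ≤ B) (y : ℂ) (hy : aeval y q = 0) : ‖y‖ ≤ 1 + B := by
  by_contra hlt
  push Not at hlt
  have hB0 : 0 ≤ B := le_trans (abs_nonneg _) (hB 0)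
  have h1 : y ^ δ = - ∑ i ∈ range δ, (q.coeff i : ℂ) * y ^ i := by
    rw [aeval_eq_sum_range, hd, Finset.sum_range_succ] at hy
    have hc : q.coeff δ = 1 := by rw [← hd]; exact hm
    rw [hc, one_smul] at hy
    have h2 : ∑ i ∈ range δ, q.coeff i • y ^ i = ∑ i ∈ range δ, (q.coeff i : ℂ) * y ^ i := by
      refine Finset.sum_congr rfl ?_
      intro i _
      rw [zsmul_eq_mul]
    rw [h2] at hy
    linear_combination hy
  have h2 : ‖y‖ ^ δ ≤ ∑ i ∈ range δ, B * ‖y‖ ^ i := by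
    rw [← norm_pow, h1, norm_neg]
    refine le_trans (norm_sum_le _ _) ?_
    refine Finset.sum_le_sum ?_
    intro i _
    rw [norm_mul, norm_pow]
    have h3 : ‖(q.coeff i : ℂ)‖ = |(q.coeff i : ℝ)| := by
      rw [Complex.norm_intCast]
    rw [h3]
    gcongr
    exact hB i
  rw [← Finset.mul_sum] at h2
  have h3 : (∑ i ∈ range δ, ‖y‖ ^ i) * (‖y‖ - 1) = ‖y‖ ^ δ - 1 := geom_sum_mul _ _
  have h4 : 0 ≤ ∑ i ∈ range δ, ‖y‖ ^ i := by positivity
  nlinarith

theorem lio : T_LIO := by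
  classical
  intro ι _ _ δ θ B Y x hδ hY hθ hx hx0
  choose q hqm hqd hqB hq0 using hθ
  have hB1 : ∀ i, 1 ≤ B i := by
    intro i
    have h1 := hqB i δ
    have hc : (q i).coeff δ = 1 := by rw [← hqd i]; exact hqm i
    rw [hc] at h1
    simpa using h1
  have hint : ∀ i, IsIntegral ℤ (θ i) := by
    intro i
    refine ⟨q i, hqm i, ?_⟩
    rw [← aeval_def]
    exact hq0 i
  set K : IntermediateField ℚ ℂ := adjoin ℚ (Set.range θ) with hK
  have : FiniteDimensional ℚ K := by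
    apply finiteDimensional_adjoin
    rintro _ ⟨i, rfl⟩
    exact (hint i).tower_top
  -- the generators in K
  set θ' : ι → K := fun i => ⟨θ i, subset_adjoin ℚ _ ⟨i, rfl⟩⟩ with hθ'
  have hθ'v : ∀ i, (algebraMap K ℂ) (θ' i) = θ i := fun i => rfl
  have hθ'root : ∀ i, aeval (θ' i) (q i) = 0 := by
    intro i
    have h1 : (algebraMap K ℂ) (aeval (θ' i) (q i)) = 0 := by
      rw [← aeval_algebraMap_apply, hθ'v, hq0]
    exact (map_eq_zero_iff _ (algebraMap K ℂ).injective).mp h1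
  have hemb : ∀ (σ : K →ₐ[ℚ] ℂ) (i : ι), aeval (σ (θ' i)) (q i) = 0 := by
    intro σ i
    have h1 : aeval (σ (θ' i)) (q i) = σ (aeval (θ' i) (q i)) := by
      have := (aeval_algHom_apply (σ.restrictScalars ℤ) (θ' i) (q i))
      simpa using this
    rw [h1, hθ'root, map_zero]
  have hembn : ∀ (σ : K →ₐ[ℚ] ℂ) (i : ι), ‖σ (θ' i)‖ ≤ 1 + B i := fun σ i =>
    norm_root_le (q i) δ (B i) (hqm i) (hqd i) (hqB i) _ (hemb σ i)
  -- the element
  obtain ⟨c, hcY, hcx⟩ := hx
  set x' : K := ∑ e : ι → Fin δ, ((c e : ℤ) : K) * ∏ i, θ' i ^ (e i : ℕ) with hx'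
  have hx'v : (algebraMap K ℂ) x' = x := by
    rw [hx', hcx, map_sum]
    refine Finset.sum_congr rfl ?_
    intro e _
    rw [map_mul, map_intCast, map_prod]
    congr 1
  have hx'0 : x' ≠ 0 := by
    intro h0
    apply hx0
    rw [← hx'v, h0, map_zero]
  have hx'int : IsIntegral ℤ x' := by
    have h1 : ∀ i, IsIntegral ℤ (θ' i) := by
      intro i
      refine ⟨q i, hqm i, ?_⟩
      rw [← aeval_def]
      exact hθ'root i
    rw [hx']
    refine IsIntegral.sum _ ?_
    intro e _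
    refine IsIntegral.mul ?_ ?_
    · exact (isIntegral_algebraMap (R := ℤ) (A := K) (x := c e))
    · refine IsIntegral.prod _ ?_
      intro i _
      exact (h1 i).pow _
  -- the norm
  have hNint : IsIntegral ℤ (Algebra.norm ℚ x') := Algebra.isIntegral_norm ℚ hx'int
  obtain ⟨z, hz⟩ := IsIntegrallyClosed.isIntegral_iff.mp hNint
  have hN0 : Algebra.norm ℚ x' ≠ 0 := Algebra.norm_ne_zero_iff.mpr hx'0
  have hz0 : z ≠ 0 := by
    intro h0
    rw [h0, map_zero] at hz
    exact hN0 hz.symm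
  have hprod : ((z : ℤ) : ℂ) = ∏ σ : K →ₐ[ℚ] ℂ, σ x' := by
    rw [← Algebra.norm_eq_prod_embeddings ℚ ℂ x', ← hz]
    simp
  have h1le : 1 ≤ ∏ σ : K →ₐ[ℚ] ℂ, ‖σ x'‖ := by
    rw [← norm_prod, ← hprod, Complex.norm_intCast]
    exact_mod_cast Int.one_le_abs hz0
  -- bound for the conjugates
  set Z : ℝ := ((δ : ℝ) ^ Fintype.card ι) * Y * ∏ i, (1 + B i) ^ δ with hZ
  have hδ1 : (1 : ℝ) ≤ δ := by exact_mod_cast hδ
  have hZ1 : 1 ≤ Z := by
    rw [hZ]
    have h1 : (1 : ℝ) ≤ (δ : ℝ) ^ Fintype.card ι := one_le_pow₀ hδ1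
    have h2 : (1 : ℝ) ≤ ∏ i, (1 + B i) ^ δ := by
      have := Finset.prod_le_prod (s := (Finset.univ : Finset ι)) (f := fun _ => (1 : ℝ))
        (g := fun i => (1 + B i) ^ δ) (fun i _ => zero_le_one) (fun i _ => by
          apply one_le_pow₀; linarith [hB1 i])
      simpa using this
    have h3 : (1 : ℝ) ≤ (δ : ℝ) ^ Fintype.card ι * Y := by nlinarith
    nlinarith
  have hconj : ∀ σ : K →ₐ[ℚ] ℂ, ‖σ x'‖ ≤ Z := by
    intro σ
    rw [hx', map_sum]
    refine le_trans (norm_sum_le _ _) ?_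
    have h1 : ∀ e ∈ (Finset.univ : Finset (ι → Fin δ)),
        ‖σ (((c e : ℤ) : K) * ∏ i, θ' i ^ (e i : ℕ))‖ ≤ Y * ∏ i, (1 + B i) ^ δ := by
      intro e _
      rw [map_mul, map_intCast, map_prod, norm_mul, Complex.norm_intCast, norm_prod]
      refine mul_le_mul (hcY e) ?_ (by positivity) (by linarith)
      refine Finset.prod_le_prod (fun i _ => norm_nonneg _) ?_
      intro i _
      rw [map_pow, norm_pow]
      refine le_trans (pow_le_pow_left₀ (norm_nonneg _) (hembn σ i) _) ?_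
      exact pow_le_pow_right₀ (by linarith [hB1 i]) (e i).2.le
    refine le_trans (Finset.sum_le_sum h1) ?_
    rw [Finset.sum_const, nsmul_eq_mul, hZ]
    simp only [Finset.card_univ, Fintype.card_fun, Fintype.card_fin]
    push_cast
    rw [mul_assoc]
  -- the number of embeddings
  have hcard : Fintype.card (K →ₐ[ℚ] ℂ) ≤ δ ^ Fintype.card ι := by
    set R : ι → Finset ℂ := fun i => ((q i).map (Int.castRingHom ℂ)).roots.toFinset with hR
    have hqi0 : ∀ i, (q i).map (Int.castRingHom ℂ) ≠ 0 := fun i => ((hqm i).map _).ne_zero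
    have hmem : ∀ (σ : K →ₐ[ℚ] ℂ) (i : ι), σ (θ' i) ∈ R i := by
      intro σ i
      rw [hR, Multiset.mem_toFinset, mem_roots (hqi0 i), IsRoot.def, eval_map]
      have := hemb σ i
      rwa [aeval_def] at this
    have hRc : ∀ i, (R i).card ≤ δ := by
      intro i
      refine le_trans (Multiset.toFinset_card_le _) ?_
      refine le_trans (card_roots' _) ?_
      rw [(hqm i).natDegree_map]
      exact (hqd i).le
    set F : (K →ₐ[ℚ] ℂ) → ((i : ι) → R i) := fun σ i => ⟨σ (θ' i), hmem σ i⟩ with hF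
    have hFinj : Function.Injective F := by
      intro σ τ hst
      apply adjoin_algHom_ext
      rintro _ ⟨i, rfl⟩
      have := congrArg Subtype.val (congrFun hst i)
      exact this
    refine le_trans (Fintype.card_le_of_injective F hFinj) ?_
    rw [Fintype.card_pi]
    refine le_trans (Finset.prod_le_prod' (g := fun _ => δ) ?_) ?_
    · intro i _
      rw [Fintype.card_coe]
      exact hRc i
    · simp
  -- conclusion
  have hincl : K.val x' = x := hx'v
  rw [← Finset.mul_prod_erase Finset.univ (fun σ : K →ₐ[ℚ] ℂ => ‖σ x'‖)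
    (Finset.mem_univ K.val)] at h1le
  have hincl' : ‖K.val x'‖ = ‖x‖ := congrArg _ hincl
  have h2 : ∏ σ ∈ (Finset.univ : Finset (K →ₐ[ℚ] ℂ)).erase K.val, ‖σ x'‖ ≤
      Z ^ (δ ^ Fintype.card ι) := by
    refine le_trans (Finset.prod_le_prod (g := fun _ => Z) (fun _ _ => norm_nonneg _)
      (fun σ _ => hconj σ)) ?_
    rw [Finset.prod_const]
    refine pow_le_pow_right₀ hZ1 ?_
    refine le_trans (Finset.card_erase_le) ?_
    rw [Finset.card_univ]
    exact hcard
  calc 1 ≤ ‖x‖ * ∏ σ ∈ (Finset.univ : Finset (K →ₐ[ℚ] ℂ)).erase K.val, ‖σ x'‖ := by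
        rw [← hincl']; exact h1le
    _ ≤ ‖x‖ * Z ^ (δ ^ Fintype.card ι) := by gcongr
    _ = Z ^ (δ ^ Fintype.card ι) * ‖x‖ := mul_comm _ _

end Pool.Agent.H36.BF
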