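import Pool.Agent.H72.BF.Targets

open Polynomial Finset

namespace Pool.Agent.H36.BF

open Pool.Agent.H72.BF

/-- `Gf` is additive in the polynomial -/
lemma gf_add (b0 c : ℂ) (P Q : ℂ[X]) (m : ℕ) :
    Gf b0 c (P + Q) m = Gf b0 c P m + Gf b0 c Q m := by
  induction m with
  | zero => rfl
  | succ m ih =>
    simp only [Gf, ih, derivative_add]
    ring

lemma gf_C_mul (b0 c a : ℂ) (P : ℂ[X]) (m : ℕ) :
    Gf b0 c (C a * P) m = C a * Gf b0 c P m := by
  induction m with
  | zero => rfl
  | succ m ih =>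
    simp only [Gf, ih, derivative_C_mul]
    ring

lemma deg_C_mul_le (a : ℂ) (P : ℂ[X]) : (C a * P).degree ≤ P.degree := by
  refine le_trans (degree_mul_le _ _) ?_
  calc (C a).degree + P.degree ≤ 0 + P.degree := by gcongr; exact degree_C_le
    _ = P.degree := zero_add _

lemma gf_zero (b0 c : ℂ) (m : ℕ) : Gf b0 c 0 m = 0 := by
  induction m with
  | zero => rfl
  | succ m ih => simp only [Gf, ih, derivative_zero]; ring

lemma gf_sum {ι : Type*} (b0 c : ℂ) (s : Finset ι) (P : ι → ℂ[X]) (m : ℕ) :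
    Gf b0 c (∑ i ∈ s, P i) m = ∑ i ∈ s, Gf b0 c (P i) m := by
  classical
  induction s using Finset.induction_on with
  | empty => simp [gf_zero]
  | insert a s ha ih => rw [Finset.sum_insert ha, Finset.sum_insert ha, gf_add, ih]

lemma gf_degree (b0 c : ℂ) (P : ℂ[X]) (d : ℕ) (hP : P.degree < d) (m : ℕ) :
    (Gf b0 c P m).degree < d := by
  induction m with
  | zero => exact hP
  | succ m ih =>
    simp only [Gf]
    refine lt_of_le_of_lt (degree_add_le _ _) (max_lt ?_ ?_)
    · refine lt_of_le_of_lt (deg_C_mul_le _ _) ?_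
      exact lt_of_le_of_lt (degree_derivative_le) ih
    · exact lt_of_le_of_lt (deg_C_mul_le _ _) ih

theorem zer (hG : T_GRP) (hS : T_SEP) (hL : T_LAG) (hD : T_DEI) (hR : T_RLI) (hE : T_EXPU) :
    T_ZER := by
  classical
  intro n lam hlam
  obtain ⟨g, hg1, hg⟩ := hG n lam hlam
  refine ⟨g, hg1, ?_⟩
  intro h B N τ L0 S hh hb0 hN hgN hNS hsmall p hq
  set val : (Fin (n + 1) → Fin N) → ℂ := fun t => Complex.exp (∑ j, ((t j : ℕ) : ℂ) * lam j)
    with hval
  set tn : (Fin (n + 1) → Fin N) → (Fin (n + 1) → ℕ) := fun t j => (t j : ℕ) with htn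
  set P : (Fin (n + 1) → Fin N) → ℂ[X] := fun t =>
    ∑ u : Fin h × Fin (L0 + 1), C ((p (t, u) : ℤ) : ℂ) * RP h u.1 u.2 with hPdef
  set d : ℕ := h * (L0 + 1) with hd
  have hPdeg : ∀ t, (P t).degree < d := by
    intro t
    refine lt_of_le_of_lt (degree_sum_le _ _) ?_
    rw [Finset.sup_lt_iff (by exact WithBot.bot_lt_coe d)]
    intro u _
    refine lt_of_le_of_lt (deg_C_mul_le _ _) ?_
    refine lt_of_le_of_lt (degree_le_natDegree) ?_
    rw [hR.1]
    have h1 : (u.1 : ℕ) < h := u.1.2
    have h2 : (u.2 : ℕ) ≤ L0 := Nat.lt_succ_iff.mp u.2.2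
    have h3 : (u.1 : ℕ) + (u.2 : ℕ) * h < d := by
      rw [hd]
      calc (u.1 : ℕ) + (u.2 : ℕ) * h ≤ (u.1 : ℕ) + L0 * h := by gcongr
        _ < h + L0 * h := by omega
        _ = h * (L0 + 1) := by ring
    exact_mod_cast h3
  set Γ : Finset ℂ := Finset.univ.image val with hΓ
  have hΓ0 : (0 : ℂ) ∉ Γ := by
    intro h0
    rw [hΓ, Finset.mem_image] at h0
    obtain ⟨t, _, ht⟩ := h0
    exact Complex.exp_ne_zero _ ht
  have hΓcard : Γ.card ≤ N ^ (n + 1) := by
    refine le_trans Finset.card_image_le ?_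
    simp
  set cc : (Fin (n + 1) → ℕ) → ℂ → ℂ[X] := fun m g =>
    ∑ t ∈ Finset.univ.filter (fun t => val t = g),
      Gf (B.b 0) (gam B (tn t) 0) (P t) (m 0) *
        C (∏ j : Fin n, gam B (tn t) j.succ ^ m j.succ) with hcc
  have hccdeg : ∀ m g, (cc m g).degree < d := by
    intro m g
    refine lt_of_le_of_lt (degree_sum_le _ _) ?_
    rw [Finset.sup_lt_iff (by exact WithBot.bot_lt_coe d)]
    intro t _
    rw [mul_comm]
    refine lt_of_le_of_lt (deg_C_mul_le _ _) ?_
    exact gf_degree _ _ _ _ (hPdeg t) _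
  -- the value of qq
  have hqq : ∀ (m : Fin (n + 1) → ℕ) (s : ℕ), qq lam B p m s =
      ∑ g ∈ Γ, (cc m g).eval (s : ℂ) * g ^ s := by
    intro m s
    have h1 : ∀ t : Fin (n + 1) → Fin N,
        ∏ j, Complex.exp (lam j) ^ ((t j : ℕ) * s) = val t ^ s := by
      intro t
      rw [hval]
      simp only
      rw [Complex.exp_sum, ← Finset.prod_pow]
      refine Finset.prod_congr rfl ?_
      intro j _
      rw [pow_mul, ← Complex.exp_nat_mul]
    have h2 : qq lam B p m s = ∑ t : Fin (n + 1) → Fin N,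
        (Gf (B.b 0) (gam B (tn t) 0) (P t) (m 0)).eval (s : ℂ) *
          (∏ j : Fin n, gam B (tn t) j.succ ^ m j.succ) * val t ^ s := by
      unfold qq
      rw [Fintype.sum_prod_type]
      refine Finset.sum_congr rfl ?_
      intro t _
      rw [← h1 t]
      have h3 : Gf (B.b 0) (gam B (tn t) 0) (P t) (m 0) =
          ∑ u : Fin h × Fin (L0 + 1), C ((p (t, u) : ℤ) : ℂ) *
            Gf (B.b 0) (gam B (tn t) 0) (RP h u.1 u.2) (m 0) := by
        rw [hPdef]
        simp only
        rw [gf_sum]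
        refine Finset.sum_congr rfl ?_
        intro u _
        rw [gf_C_mul]
      rw [h3, eval_finsetSum, Finset.sum_mul, Finset.sum_mul]
      refine Finset.sum_congr rfl ?_
      intro u _
      rw [eval_mul, eval_C]
      have h4 : (tt (t, u) : Fin (n + 1) → ℕ) = tn t := rfl
      rw [h4]
      simp only [cf]
      have h5 : ∀ j, tn t j = (t j : ℕ) := fun j => rfl
      simp only [h5]
      ring
    rw [h2]
    have h5 : ∀ g ∈ Γ, (cc m g).eval (s : ℂ) * g ^ s =
        ∑ t ∈ Finset.univ.filter (fun t => val t = g),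
        (Gf (B.b 0) (gam B (tn t) 0) (P t) (m 0)).eval (s : ℂ) *
          (∏ j : Fin n, gam B (tn t) j.succ ^ m j.succ) * val t ^ s := by
      intro g _
      rw [hcc]
      simp only
      rw [eval_finsetSum, Finset.sum_mul]
      refine Finset.sum_congr rfl ?_
      intro t ht
      rw [(Finset.mem_filter.mp ht).2, eval_mul, eval_C]
    rw [Finset.sum_congr rfl h5]
    rw [Finset.sum_fiberwise_of_maps_to]
    intro t _
    exact Finset.mem_image_of_mem _ (Finset.mem_univ t)
  -- the coefficients vanish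
  have hczero : ∀ m : Fin (n + 1) → ℕ, (∀ j, m j ≤ τ) → ∀ g ∈ Γ, cc m g = 0 := by
    intro m hm
    refine hE Γ (cc m) d hΓ0 (fun g _ => hccdeg m g) ?_
    intro s hs
    rw [← hqq]
    refine hq m hm s (lt_of_lt_of_le hs (le_trans ?_ hNS))
    exact Nat.mul_le_mul_right d hΓcard
  -- the polynomials vanish
  have hPzero : ∀ t, P t = 0 := by
    intro t0
    set G := Finset.univ.filter (fun t => val t = val t0) with hGdef
    have hGmem : ∀ t ∈ G, val t = val t0 := fun t ht => (Finset.mem_filter.mp ht).2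
    have htninj : Function.Injective tn := by
      intro a b hab
      funext j
      have := congrFun hab j
      exact Fin.ext this
    have hGcard : G.card ≤ g * N := by
      have h1 := hg N (G.image tn) hN (by
        intro t ht j
        obtain ⟨t', _, rfl⟩ := Finset.mem_image.mp ht
        exact (t' j).2) (by
        intro t ht t' ht'
        obtain ⟨u, hu, rfl⟩ := Finset.mem_image.mp ht
        obtain ⟨u', hu', rfl⟩ := Finset.mem_image.mp ht'
        have e1 := hGmem u hu
        have e2 := hGmem u' hu'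
        exact e1.trans e2.symm)
      rwa [Finset.card_image_of_injective _ htninj] at h1
    have hD' := hD n τ (B.b 0) (Fin (n + 1) → Fin N) G (fun t => gam B (tn t)) P (by
      intro m hm
      exact hczero m hm (val t0) (Finset.mem_image_of_mem _ (Finset.mem_univ t0)))
    refine hL n τ (Fin (n + 1) → Fin N) G (fun t => gam B (tn t)) P (by omega) ?_ hD' t0
      (Finset.mem_filter.mpr ⟨Finset.mem_univ _, rfl⟩)
    intro t ht t' ht' hgam
    by_contra hne
    have h1 := hS n lam hlam B hb0 N (tn t) (tn t') hN (fun j => (t j).2) (fun j => (t' j).2)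
      ((hGmem t ht).trans (hGmem t' ht').symm) hgam (fun hc => hne (htninj hc))
    linarith
  -- conclusion
  funext u
  obtain ⟨t, u⟩ := u
  have h1 := hR.2 h L0 (fun u => p (t, u)) (hPzero t)
  exact congrFun h1 u

end Pool.Agent.H36.BF
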