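import Pool.Agent.H72.BF.Targets

open Polynomial Finset Filter

namespace Pool.Agent.H36.BF

open Pool.Agent.H72.BF

lemma exists_kappa (K : ℝ) (n g : ℕ) (hK : 1 ≤ K) : ∃ κ : ℕ, 1 ≤ κ ∧ 3 * K ≤ κ ∧ g ≤ κ ∧
    3 * K * (n + 5 + Real.log κ) ≤ κ := by
  have h1 := Real.isLittleO_log_id_atTop.def (c := 1 / (6 * K)) (by positivity)
  have h2 : ∀ᶠ k : ℕ in atTop, ‖Real.log (k : ℝ)‖ ≤ 1 / (6 * K) * ‖(id (k : ℝ))‖ :=
    tendsto_natCast_atTop_atTop.eventually h1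
  have h3 : ∀ᶠ k : ℕ in atTop, 3 * K ≤ (k : ℝ) :=
    tendsto_natCast_atTop_atTop.eventually (eventually_ge_atTop (3 * K))
  have h4 : ∀ᶠ k : ℕ in atTop, 6 * K * (n + 5) ≤ (k : ℝ) :=
    tendsto_natCast_atTop_atTop.eventually (eventually_ge_atTop (6 * K * (n + 5)))
  obtain ⟨k, hk⟩ := (((h2.and h3).and h4).and ((eventually_ge_atTop g).and
    (eventually_ge_atTop 1))).exists
  obtain ⟨⟨⟨ha, hb⟩, hc⟩, hd, he⟩ := hk
  refine ⟨k, he, hb, hd, ?_⟩
  have h5 : Real.log (k : ℝ) ≤ 1 / (6 * K) * k := by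
    have h6 : ‖(id (k : ℝ))‖ = (k : ℝ) := by simp
    rw [h6] at ha
    exact le_trans (le_abs_self _) ha
  have h7 : 3 * K * Real.log k ≤ 3 * K * (1 / (6 * K) * k) := by gcongr
  have h8 : 3 * K * (1 / (6 * K) * k) = (k : ℝ) / 2 := by field_simp; norm_num
  nlinarith

lemma exists_w (A : ℝ) (hA : 0 < A) (k : ℕ) : ∃ w : ℕ, A * ((w : ℝ) + 1) ^ k ≤ 2 ^ w := by
  have h1 := tendsto_pow_const_div_const_pow_of_one_lt k (r := 2) (by norm_num)
  have h2 : ∀ᶠ m : ℕ in atTop, (m : ℝ) ^ k / 2 ^ m < 1 / (2 * A) :=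
    h1.eventually (gt_mem_nhds (by positivity))
  obtain ⟨m, hm1, hm2⟩ := (h2.and (eventually_ge_atTop 1)).exists
  obtain ⟨w, rfl⟩ : ∃ w, m = w + 1 := ⟨m - 1, by omega⟩
  refine ⟨w, ?_⟩
  rw [div_lt_div_iff₀ (by positivity) (by positivity)] at hm1
  push_cast at hm1
  rw [pow_succ (2 : ℝ) w] at hm1
  nlinarith

theorem par : T_PAR := by
  intro K n D g hK hD hg
  obtain ⟨κ, hκ1, hκ3, hκg, hκl⟩ := exists_kappa K n g hK
  have hκ1' : (1 : ℝ) ≤ κ := by exact_mod_cast hκ1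
  have hD' : (1 : ℝ) ≤ D := by exact_mod_cast hD
  have hn0 : (0 : ℝ) ≤ n := Nat.cast_nonneg n
  set A : ℝ := 6 * K * D * κ * (2 * κ * (n + 2)) ^ (n + 1) * (6 * κ * (n + 2)) with hA
  have hApos : 0 < A := by positivity
  obtain ⟨w, hw⟩ := exists_w A hApos (n + 3)
  have hw0 : (0 : ℝ) ≤ w := Nat.cast_nonneg w
  set J : ℕ := (n + 2) * w with hJ
  set σ : ℕ := κ * (J + 1) * (w + 2) with hσ
  set L : ℕ := 2 * D * σ * (κ * (J + 1) + 1) ^ (n + 1) with hL
  have hσ1 : 1 ≤ σ := by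
    rw [hσ]
    exact Nat.succ_le_of_lt (by positivity)
  have hL1 : 1 ≤ L := by
    rw [hL]
    exact Nat.succ_le_of_lt (by positivity)
  obtain ⟨L0, hL0⟩ : ∃ L0, L = L0 + 1 := ⟨L - 1, by omega⟩
  have hL0' : (L0 : ℝ) + 1 = L := by rw [hL0]; push_cast; ring
  -- real versions
  have hJr : (J : ℝ) = (n + 2) * w := by rw [hJ]; push_cast; ring
  have hσr : (σ : ℝ) = κ * (J + 1) * (w + 2) := by rw [hσ]; push_cast; ring
  have hLr : (L : ℝ) = 2 * D * σ * (κ * (J + 1) + 1) ^ (n + 1) := by rw [hL]; push_cast; ring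
  have hσ1' : (1 : ℝ) ≤ σ := by exact_mod_cast hσ1
  have hJ0 : (0 : ℝ) ≤ J := Nat.cast_nonneg J
  have hJb : (J : ℝ) + 1 ≤ (n + 2) * (w + 1) := by rw [hJr]; nlinarith
  have hb1 : (κ : ℝ) * (J + 1) + 1 ≤ 2 * κ * (n + 2) * (w + 1) := by
    have h1 : (κ : ℝ) * (J + 1) ≤ κ * ((n + 2) * (w + 1)) := by gcongr
    have h2 : (1 : ℝ) ≤ κ * ((n + 2) * (w + 1)) := by
      have h3 : (1 : ℝ) ≤ (n + 2) * (w + 1) := by nlinarith
      nlinarith
    linarith
  have hb2 : (σ : ℝ) + 4 ≤ 6 * κ * (n + 2) * (w + 1) ^ 2 := by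
    have h1 : (σ : ℝ) ≤ κ * ((n + 2) * (w + 1)) * (w + 2) := by rw [hσr]; gcongr
    have h2 : (κ : ℝ) * ((n + 2) * (w + 1)) * (w + 2) ≤ κ * ((n + 2) * (w + 1)) * (2 * (w + 1)) := by
      gcongr; linarith
    have h3 : (1 : ℝ) ≤ κ * (n + 2) * (w + 1) ^ 2 := by
      have h4 : (1 : ℝ) ≤ (w + 1) ^ 2 := by nlinarith
      have h5 : (1 : ℝ) ≤ κ * (n + 2) := by nlinarith
      nlinarith
    nlinarith
  have hmain : 6 * K * D * κ * (κ * (J + 1) + 1) ^ (n + 1) * (σ + 4) ≤ (2 : ℝ) ^ w := by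
    refine le_trans ?_ hw
    calc 6 * K * D * κ * (κ * (J + 1) + 1) ^ (n + 1) * (σ + 4)
        ≤ 6 * K * D * κ * (2 * κ * (n + 2) * (w + 1)) ^ (n + 1) *
          (6 * κ * (n + 2) * (w + 1) ^ 2) := by gcongr
      _ = A * ((w : ℝ) + 1) ^ (n + 3) := by
          rw [hA, mul_pow (2 * (κ : ℝ) * (n + 2)) _ (n + 1)]
          ring
  set R : ℝ := (κ * (J + 1) + 1) ^ (n + 1) with hR
  have hR1 : 1 ≤ R := by
    rw [hR]; apply one_le_pow₀; nlinarith
  have h2w : (0 : ℝ) < 2 ^ w := by positivity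
  refine ⟨2 ^ w, κ * 2 ^ w, L0, σ, J, Nat.one_le_two_pow, ?_, hσ1, ?_, ?_, ?_, ?_⟩
  · have := Nat.one_le_two_pow (n := w)
    exact Nat.succ_le_of_lt (Nat.mul_pos hκ1 this)
  · intro i _
    set s : ℝ := ((σ * 2 ^ i : ℕ) : ℝ) with hs
    have hsr : s = σ * 2 ^ i := by rw [hs]; push_cast; ring
    have h2i : (1 : ℝ) ≤ 2 ^ i := one_le_pow₀ (by norm_num)
    have hsσ : (σ : ℝ) ≤ s := by rw [hsr]; nlinarith
    have hs0 : 0 ≤ s := by linarith
    unfold EE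
    have e1 : (((κ * 2 ^ w : ℕ)) : ℝ) = κ * 2 ^ w := by push_cast; ring
    have e2 : (((κ * 2 ^ w * (J + 1) : ℕ)) : ℝ) = κ * 2 ^ w * (J + 1) := by push_cast; ring
    have e3 : (((2 ^ w : ℕ)) : ℝ) = 2 ^ w := by push_cast; ring
    rw [e1, e2, e3, hL0']
    -- (a)
    have ha : K * (2 ^ w * s) ≤ κ * 2 ^ w * s / 3 := by
      have h1 : 3 * K * (2 ^ w * s) ≤ κ * (2 ^ w * s) := by gcongr
      nlinarith
    -- (b)
    have hb : K * (κ * 2 ^ w * (J + 1) * (1 + Real.log (κ * 2 ^ w * (J + 1)) +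
        Real.log (2 ^ w))) ≤ κ * 2 ^ w * s / 3 := by
      have hlog : Real.log (κ * 2 ^ w * (J + 1)) = Real.log κ + w * Real.log 2 +
          Real.log (J + 1) := by
        rw [Real.log_mul (by positivity) (by positivity), Real.log_mul (by positivity)
          (by positivity), Real.log_pow]
      have hlog2 : Real.log 2 ≤ 1 := by
        have := Real.log_le_sub_one_of_pos (x := 2) (by norm_num)
        linarith
      have hlogJ : Real.log ((J : ℝ) + 1) ≤ J := by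
        have := Real.log_le_sub_one_of_pos (x := (J : ℝ) + 1) (by positivity)
        linarith
      have hlogκ : 0 ≤ Real.log κ := Real.log_nonneg hκ1'
      have h1 : 1 + Real.log (κ * 2 ^ w * (J + 1)) + Real.log (2 ^ w) ≤
          (n + 5 + Real.log κ) * (w + 2) := by
        rw [hlog, Real.log_pow]
        have h2 : (w : ℝ) * Real.log 2 ≤ w := by nlinarith
        nlinarith
      have h3 : 3 * K * (1 + Real.log (κ * 2 ^ w * (J + 1)) + Real.log (2 ^ w)) ≤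
          κ * (w + 2) := by
        calc 3 * K * (1 + Real.log (κ * 2 ^ w * (J + 1)) + Real.log (2 ^ w))
            ≤ 3 * K * ((n + 5 + Real.log κ) * (w + 2)) := by gcongr
          _ = (3 * K * (n + 5 + Real.log κ)) * (w + 2) := by ring
          _ ≤ κ * (w + 2) := by gcongr
      have h4 : κ * 2 ^ w * (J + 1) * (3 * K * (1 + Real.log (κ * 2 ^ w * (J + 1)) +
          Real.log (2 ^ w))) ≤ κ * 2 ^ w * (J + 1) * (κ * (w + 2)) := by gcongr
      have h5 : (κ : ℝ) * 2 ^ w * (J + 1) * (κ * (w + 2)) = κ * 2 ^ w * σ := by rw [hσr]; ring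
      have h6 : (κ : ℝ) * 2 ^ w * σ ≤ κ * 2 ^ w * s := by gcongr
      nlinarith
    -- (c)
    have hc : K * (L * (1 + Real.log (s + 2))) ≤ κ * 2 ^ w * s / 3 := by
      have hlog : 1 + Real.log (s + 2) ≤ (σ + 4) * 2 ^ i := by
        have h1 : s + 2 ≤ (σ + 2) * 2 ^ i := by rw [hsr]; nlinarith
        have h2 : Real.log (s + 2) ≤ Real.log ((σ + 2) * 2 ^ i) :=
          Real.log_le_log (by linarith) h1
        rw [Real.log_mul (by positivity) (by positivity), Real.log_pow] at h2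
        have h3 : Real.log ((σ : ℝ) + 2) ≤ σ + 1 := by
          have := Real.log_le_sub_one_of_pos (x := (σ : ℝ) + 2) (by positivity)
          linarith
        have hlog2 : Real.log 2 ≤ 1 := by
          have := Real.log_le_sub_one_of_pos (x := 2) (by norm_num)
          linarith
        have h4 : (i : ℝ) ≤ 2 ^ i := by exact_mod_cast Nat.lt_two_pow_self.le
        have h5 : (i : ℝ) * Real.log 2 ≤ i := by
          have : (0 : ℝ) ≤ i := Nat.cast_nonneg i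
          nlinarith
        nlinarith
      have hLK : 6 * K * D * R * (σ + 4) ≤ κ * 2 ^ w := by
        have h1 : 6 * K * D * R * (σ + 4) ≤ 6 * K * D * κ * R * (σ + 4) := by
          have h2 : 0 ≤ 6 * K * D * R * (σ + 4) := by positivity
          nlinarith
        have h3 : (2 : ℝ) ^ w ≤ κ * 2 ^ w := by nlinarith
        linarith
      calc K * (L * (1 + Real.log (s + 2))) ≤ K * (L * ((σ + 4) * 2 ^ i)) := by gcongr
        _ = (6 * K * D * R * (σ + 4)) * (σ * 2 ^ i) / 3 := by rw [hLr]; ring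
        _ ≤ (κ * 2 ^ w) * (σ * 2 ^ i) / 3 := by gcongr
        _ = κ * 2 ^ w * s / 3 := by rw [hsr]
    nlinarith
  · rw [← hL0, hL]
    have h1 : κ * 2 ^ w * (J + 1) + 1 ≤ 2 ^ w * (κ * (J + 1) + 1) := by
      have := Nat.one_le_two_pow (n := w)
      nlinarith
    calc 2 * (κ * 2 ^ w * (J + 1) + 1) ^ (n + 1) * σ * D
        ≤ 2 * (2 ^ w * (κ * (J + 1) + 1)) ^ (n + 1) * σ * D := by gcongr
      _ = (2 ^ w) ^ (n + 1) * (2 * D * σ * (κ * (J + 1) + 1) ^ (n + 1)) := by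
        rw [mul_pow]; ring
  · exact Nat.mul_le_mul_right _ hκg
  · rw [← hL0, hL]
    have h1 : 2 * D * (κ * (J + 1) + 1) ^ (n + 1) ≤ 2 ^ w := by
      have h2 : (2 : ℝ) * D * R ≤ 2 ^ w := by
        refine le_trans ?_ hmain
        have h3 : (2 : ℝ) * D * R * 1 ≤ 2 * D * R * (3 * K * κ * (σ + 4)) := by
          gcongr
          have : (1 : ℝ) ≤ K * κ := by nlinarith
          nlinarith
        nlinarith
      rw [hR] at h2
      exact_mod_cast h2
    calc (2 ^ w) ^ (n + 1) * (2 * D * σ * (κ * (J + 1) + 1) ^ (n + 1))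
        = (2 ^ w) ^ (n + 1) * σ * (2 * D * (κ * (J + 1) + 1) ^ (n + 1)) := by ring
      _ ≤ (2 ^ w) ^ (n + 1) * σ * 2 ^ w := by gcongr
      _ = σ * 2 ^ J := by rw [hJ, mul_comm (n + 2) w, pow_mul]; ring

end Pool.Agent.H36.BF
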